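import Pool.Agent.Q17.DC.Stm
import Pool.Agent.H254R3.IN.Compare2

/-!
Project DC, job BLKC: blocks from the values on a `p`-section.
-/

set_option autoImplicit false

open scoped BigOperators Classical
open Pool.Agent.H254R3.IN

noncomputable section

namespace Pool.Agent.Q154.DC

open Pool.Agent.Q17.DC

lemma nu_zero (O : ValuationSubring ℂ) : (0 : ℂ) ∈ O.nonunits := by
  rw [ValuationSubring.mem_nonunits_iff, map_zero]
  exact zero_lt_one

lemma nu_sub {O : ValuationSubring ℂ} {a b : ℂ} (ha : a ∈ O.nonunits) (hb : b ∈ O.nonunits) :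
    a - b ∈ O.nonunits := by
  rw [ValuationSubring.mem_nonunits_iff] at *
  exact lt_of_le_of_lt (O.valuation.map_sub a b) (max_lt ha hb)

lemma nu_sum' {O : ValuationSubring ℂ} {ι : Type} (S : Finset ι) (f : ι → ℂ)
    (h : ∀ i ∈ S, f i ∈ O.nonunits) : ∑ i ∈ S, f i ∈ O.nonunits := by
  rw [ValuationSubring.mem_nonunits_iff]
  apply Valuation.map_sum_lt O.valuation one_ne_zero
  intro i hi
  exact (ValuationSubring.mem_nonunits_iff O).mp (h i hi)

/-- a finsum over a subtype as a sum over a filter -/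
lemma fin_filter {T : Type} [Fintype T] (P : T → Prop) (f : T → ℂ) :
    ∑ᶠ y : {y : T // P y}, f y = ∑ y ∈ Finset.univ.filter (fun y : T => P y), f y := by
  rw [finsum_eq_sum_of_fintype,
    ← Finset.sum_subtype (p := P) (Finset.univ.filter (fun y : T => P y)) (by simp) f]

lemma conj_hom {H G : Type} [Group H] [Group G] (j : H →* G) {y z : H} (h : IsConj y z) :
    IsConj (j y) (j z) := by
  obtain ⟨c, hc⟩ := isConj_iff.mp h
  exact isConj_iff.mpr ⟨j c, by rw [← hc]; simp⟩

/-- sums over a subgroup, sorted by the classes of an intermediate group -/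
lemma two_level {A H G : Type} [Group A] [Fintype A] [Group H] [Fintype H] [Group G]
    (j : H →* G) (i : A →* H) (f : A → ℂ) (x : G) :
    ∑ v ∈ Finset.univ.filter (fun v : A => IsConj x (j (i v))), f v =
      ∑ K ∈ Finset.univ.filter (fun K : ConjClasses H => IsConj x (j (rep K))),
        ∑ v ∈ Finset.univ.filter (fun v : A => IsConj (rep K) (i v)), f v := by
  have h1 : ∀ K ∈ Finset.univ.filter (fun K : ConjClasses H => IsConj x (j (rep K))),
      ∑ v ∈ Finset.univ.filter (fun v : A => IsConj (rep K) (i v)), f v =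
      ∑ v ∈ Finset.univ.filter (fun v : A => IsConj x (j (i v))),
        if IsConj (rep K) (i v) then f v else 0 := by
    intro K hK
    have hK' := (Finset.mem_filter.mp hK).2
    rw [Finset.sum_filter, Finset.sum_filter]
    apply Finset.sum_congr rfl
    intro v _
    by_cases h2 : IsConj (rep K) (i v)
    · rw [if_pos h2, if_pos (hK'.trans (conj_hom j h2))]
    · rw [if_neg h2, ite_self]
  rw [Finset.sum_congr rfl h1, Finset.sum_comm]
  apply Finset.sum_congr rfl
  intro v hv
  have hv' := (Finset.mem_filter.mp hv).2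
  rw [Finset.sum_eq_single (ConjClasses.mk (i v))]
  · rw [if_pos (rep_mk _)]
  · intro K _ hne
    rw [if_neg]
    intro hc
    exact hne ((mk_eq_iff _ _).mpr hc).symm
  · intro hn
    exfalso
    apply hn
    refine Finset.mem_filter.mpr ⟨Finset.mem_univ _, ?_⟩
    exact hv'.trans (conj_hom j (rep_mk (i v))).symm

/-- **BLKC** -/
theorem t_BLKC : S_SMT → S_SECT → S_PRT → S_BLKC := by
  intro hSMT hSECT hPRT G _ _ H p hp O hpO z hz hcen χ ψ ε hχ hψ hε hval hex x
  obtain ⟨s, hs1, hs2, hs3⟩ := hex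
  -- the centralizer of `z`
  obtain ⟨A, hA⟩ : ∃ A : Subgroup H, A = Subgroup.centralizer ({z} : Set H) := ⟨_, rfl⟩
  have hmem : ∀ a : H, a ∈ A ↔ Commute z a := by
    intro a
    rw [hA, Subgroup.mem_centralizer_singleton_iff]
    exact ⟨fun h => h.symm, fun h => h.symm⟩
  have hzA : z ∈ A := (hmem z).mpr (Commute.refl z)
  have hsA : s ∈ A := (hmem s).mpr hs1
  obtain ⟨zA, hzA'⟩ : ∃ zA : A, zA = ⟨z, hzA⟩ := ⟨_, rfl⟩
  obtain ⟨sA, hsA'⟩ : ∃ sA : A, sA = ⟨s, hsA⟩ := ⟨_, rfl⟩
  have hzc : ((zA : A) : H) = z := by rw [hzA']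
  have hsc : ((sA : A) : H) = s := by rw [hsA']
  have hcomm : ∀ a : A, Commute zA a := by
    intro a
    apply Subtype.ext
    have h := (hmem (a : H)).mp a.2
    change ((zA : A) : H) * (a : H) = (a : H) * ((zA : A) : H)
    rw [hzc]
    exact h
  have hord : ∀ a : A, orderOf a = orderOf (a : H) := by
    intro a
    exact (Subgroup.orderOf_coe a).symm
  have hzk : ∃ k, orderOf zA = p ^ k := by
    obtain ⟨k, hk⟩ := hz
    refine ⟨k, ?_⟩
    rw [hord, hzc, hk]
  -- the two embeddings
  obtain ⟨i, hi⟩ : ∃ i : A →* H, i = A.subtype := ⟨_, rfl⟩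
  obtain ⟨j, hj⟩ : ∃ j : A →* G, j = H.subtype.comp A.subtype := ⟨_, rfl⟩
  have hi' : ∀ a : A, i a = (a : H) := fun a => by rw [hi]; rfl
  have hj' : ∀ a : A, j a = ((a : H) : G) := fun a => by rw [hj]; rfl
  have hiinj : Function.Injective i := by
    rw [hi]
    exact A.subtype_injective
  have hjinj : Function.Injective j := by
    rw [hj]
    exact H.subtype_injective.comp A.subtype_injective
  have hci : ∀ g : H, Commute (i zA) g ↔ g ∈ i.range := by
    intro g
    rw [hi', hzc, ← hmem, MonoidHom.mem_range]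
    constructor
    · intro h
      exact ⟨⟨g, h⟩, hi' _⟩
    · rintro ⟨a, rfl⟩
      rw [hi']
      exact a.2
  have hcj : ∀ g : G, Commute (j zA) g ↔ g ∈ j.range := by
    intro g
    rw [hj', hzc, MonoidHom.mem_range]
    constructor
    · intro h
      have hg : g ∈ H := hcen g h
      have hg2 : (⟨g, hg⟩ : H) ∈ A := by
        rw [hmem]
        apply Subtype.ext
        exact h
      exact ⟨⟨⟨g, hg⟩, hg2⟩, hj' _⟩
    · rintro ⟨a, rfl⟩
      rw [hj']
      have h := (hmem (a : H)).mp a.2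
      have h2 := congrArg (fun y : H => (y : G)) h
      exact h2
  -- the block of the centralizer
  have hne0 : (fun t : A => χ (j (zA * t))) sA ≠ 0 := by
    show χ (j (zA * sA)) ≠ 0
    rw [hj']
    have e1 : ((zA * sA : A) : H) = z * s := by
      rw [Subgroup.coe_mul, hzc, hsc]
    rw [e1, hval s hs1 hs2]
    apply mul_ne_zero _ hs3
    rcases hε with h | h <;> rw [h] <;> norm_num
  obtain ⟨β, hβ, hβne⟩ := hPRT A O (fun t : A => χ (j (zA * t))) sA hne0
  obtain ⟨φ, hφ⟩ := hβ.nonempty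
  have hχsum : ∑ t : A, blockCoeff β t * χ (j (zA * sA * t)) ≠ 0 := by
    have e1 : ∀ t : A, zA * sA * t = zA * (sA * t) := fun t => mul_assoc _ _ _
    simp_rw [e1]
    exact hβne
  -- comparison with `ψ`
  obtain ⟨h', hh'⟩ : ∃ h' : A → ℂ, h' = fun t => χ (j (zA * t)) - ε * ψ (i (zA * t)) := ⟨_, rfl⟩
  have hcl : IsCl h' := by
    intro g y
    have e1 : zA * (y * g * y⁻¹) = y * (zA * g) * y⁻¹ := by
      have h := (hcomm y).eq
      calc zA * (y * g * y⁻¹) = (zA * y) * g * y⁻¹ := by group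
        _ = (y * zA) * g * y⁻¹ := by rw [h]
        _ = y * (zA * g) * y⁻¹ := by group
    rw [hh']
    show χ (j (zA * (y * g * y⁻¹))) - ε * ψ (i (zA * (y * g * y⁻¹))) =
      χ (j (zA * g)) - ε * ψ (i (zA * g))
    rw [e1]
    simp only [map_mul, map_inv]
    rw [← map_mul j, ← map_mul i, hχ.conj, hψ.conj]
  have hint : ∀ t, IsIntegral ℤ (h' t) := by
    intro t
    rw [hh']
    apply IsIntegral.sub (hχ.isIntegral _)
    apply IsIntegral.mul _ (hψ.isIntegral _)
    exact (isIntegral_algebraMap (x := ε) : IsIntegral ℤ ((algebraMap ℤ ℂ) ε))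
  have hvan : ∀ y : A, Commute (1 : A) y → ¬ p ∣ orderOf y → h' (1 * y) = 0 := by
    intro y _ hy
    rw [one_mul, hh']
    show χ (j (zA * y)) - ε * ψ (i (zA * y)) = 0
    have e1 : ((zA * y : A) : H) = z * (y : H) := by
      rw [Subgroup.coe_mul, hzc]
    rw [hj', hi', e1]
    have h1 := hval (y : H) ((hmem _).mp y.2) (by rw [← hord]; exact hy)
    rw [h1, sub_self]
  have hsreg : ¬ p ∣ orderOf sA := by
    rw [hord, hsc]
    exact hs2
  have hsect := hSECT A p O hpO β hβ h' hcl hint 1 ⟨0, by simp⟩ hvan sA (Commute.one_left _) hsreg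
  have hψsum : ∑ t : A, blockCoeff β t * ψ (i (zA * sA * t)) ≠ 0 := by
    intro h0
    apply hχsum
    have e1 : ∀ t : A, blockCoeff β t * χ (j (zA * sA * t)) =
        blockCoeff β t * h' (1 * sA * t) + ε * (blockCoeff β t * ψ (i (zA * sA * t))) := by
      intro t
      rw [one_mul, hh']
      show _ = blockCoeff β t * (χ (j (zA * (sA * t))) - ε * ψ (i (zA * (sA * t)))) + _
      rw [mul_assoc zA]
      ring
    rw [Finset.sum_congr rfl (fun t _ => e1 t), Finset.sum_add_distrib, hsect, ← Finset.mul_sum,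
      h0, mul_zero, add_zero]
  -- the second main theorem
  have hG : omega χ x - ∑ᶠ v : {v : A // IsConj x (j v)}, φ v / φ 1 ∈ O.nonunits := by
    by_contra hc
    exact hχsum (hSMT A G j p O hjinj hpO zA hzk hcj β hβ φ hφ χ hχ x hc sA hsreg)
  have hH : ∀ w : H, omega ψ w - ∑ᶠ v : {v : A // IsConj w (i v)}, φ v / φ 1 ∈ O.nonunits := by
    intro w
    by_contra hc
    exact hψsum (hSMT A H i p O hiinj hpO zA hzk hci β hβ φ hφ ψ hψ w hc sA hsreg)
  rw [fin_filter (fun v : A => IsConj x (j v)) (fun v => φ v / φ 1)] at hG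
  have e2 : ∑ᶠ y : {y : H // IsConj x (y : G)}, ψ y / ψ 1 =
      ∑ K ∈ Finset.univ.filter (fun K : ConjClasses H => IsConj x ((rep K : H) : G)),
        omega ψ (rep K) := by
    rw [fin_filter (fun y : H => IsConj x (y : G)) (fun y => ψ y / ψ 1)]
    exact sum_pred (fun y : H => IsConj x (y : G))
      (fun y w hyw => ⟨fun h => h.trans (conj_hom H.subtype hyw),
        fun h => h.trans (conj_hom H.subtype hyw).symm⟩) hψ
  have e3 := two_level H.subtype i (fun v => φ v / φ 1) x
  have e4 : ∑ v ∈ Finset.univ.filter (fun v : A => IsConj x (j v)), φ v / φ 1 =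
      ∑ K ∈ Finset.univ.filter (fun K : ConjClasses H => IsConj x ((rep K : H) : G)),
        ∑ v ∈ Finset.univ.filter (fun v : A => IsConj (rep K) (i v)), φ v / φ 1 := by
    rw [hj, hi]
    rw [hi] at e3
    exact e3
  rw [e4] at hG
  rw [e2]
  have e5 : ∑ K ∈ Finset.univ.filter (fun K : ConjClasses H => IsConj x ((rep K : H) : G)),
      (omega ψ (rep K) - ∑ v ∈ Finset.univ.filter (fun v : A => IsConj (rep K) (i v)),
        φ v / φ 1) ∈ O.nonunits := by
    apply nu_sum'
    intro K _
    have h := hH (rep K)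
    rw [fin_filter (fun v : A => IsConj (rep K) (i v)) (fun v => φ v / φ 1)] at h
    exact h
  have e6 := nu_sub hG e5
  rw [Finset.sum_sub_distrib] at e6
  have e7 : ∀ a b c : ℂ, a - b - (c - b) = a - c := by
    intro a b c
    ring
  rw [e7] at e6
  exact e6

end Pool.Agent.Q154.DC
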